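import Pool.Agent.Lib.MP_afd87c_lc.BC.Asm
import Pool.Agent.Lib.MP_afd87c_lc.BC.P.MEET
import Pool.Agent.Lib.MP_afd87c_lc.BC.P.TOP
import Pool.Agent.Lib.MP_afd87c_lc.BC.P.FAC
import Pool.Agent.Lib.MP_afd87c_lc.BC.P.DIM
import Pool.Agent.Lib.MP_afd87c_lc.BC.P.FLW
import Pool.Agent.Lib.MP_afd87c_lc.BC.P.CNT
import Pool.Agent.Lib.MP_afd87c_lc.BC.P.LOW
import Pool.Agent.Lib.MP_afd87c_lc.BC.P.PSI
import Pool.Agent.Lib.MP_afd87c_lc.BC.P.MT
import Pool.Agent.Lib.MP_afd87c_lc.BC.P.STR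
import Pool.Agent.Lib.MP_afd87c_lc.BC.P.REG
import Pool.Agent.Lib.MP_afd87c_lc.BC.P.POS
import Pool.Agent.Lib.MP_afd87c_lc.BC.P.ORD
import Pool.Agent.Lib.MP_afd87c_lc.BC.P.HSK
import Pool.Agent.Lib.MP_afd87c_lc.BC.P.UPP

/-!
A sharp lower bound for the number of bundled crossings of simple circular layouts.
-/

set_option autoImplicit false

namespace Pool.Agent.Results.MP_afd87c_lc.HamiltonianBound

open Pool.Agent.MPafd87c

/-- **A sharp lower bound.** Let `z` be adjacent to all other vertices of `G`, let all degrees of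
`G - z` be `1`, `2` or `3`, with two vertices of degree `1` and `m` vertices of degree `3`. Every
simple circular layout of `G` has at least `m / 2` bundled crossings; if `m = 2 k`, then a layout
with `k` of them exists if and only if `G - z` has a Hamiltonian path, and the same holds for
straight line layouts. -/
theorem result {V : Type} [Fintype V] (G : SimpleGraph V) (z : V) (m : ℕ) (h : Hyp G z m) :
    (∀ (D : Layout G) (k : ℕ), D.BcLe k → m ≤ 2 * k) ∧
    ∀ k, m = 2 * k → ((∃ D : Layout G, D.BcLe k) ↔ HP G z) ∧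
      ((∃ D : Layout G, D.Straight ∧ D.BcLe k) ↔ HP G z) :=
  structural (p_LOW (p_TOP p_MEET) p_FAC p_DIM p_FLW p_CNT)
    (p_UPP p_PSI (p_MT p_PSI) (p_STR p_PSI (p_MT p_PSI)) p_REG p_POS p_ORD p_HSK) G z m h

end Pool.Agent.Results.MP_afd87c_lc.HamiltonianBound
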