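import Pool.Agent.Lib.MP_afd87c_lc.BC.Asm
import Pool.Agent.Lib.MP_afd87c_lc.BC.P.MEET
import Pool.Agent.Lib.MP_afd87c_lc.BC.P.TOP
import Pool.Agent.Lib.MP_afd87c_lc.BC.P.FAC
import Pool.Agent.Lib.MP_afd87c_lc.BC.P.DIM
import Pool.Agent.Lib.MP_afd87c_lc.BC.P.FLW
import Pool.Agent.Lib.MP_afd87c_lc.BC.P.CNT
import Pool.Agent.Lib.MP_afd87c_lc.BC.P.LOW
import Pool.Agent.Lib.MP_afd87c_lc.BC.P.PSI
import Pool.Agent.Lib.MP_afd87c_lc.BC.P.MT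
import Pool.Agent.Lib.MP_afd87c_lc.BC.P.STR
import Pool.Agent.Lib.MP_afd87c_lc.BC.P.REG
import Pool.Agent.Lib.MP_afd87c_lc.BC.P.POS
import Pool.Agent.Lib.MP_afd87c_lc.BC.P.ORD
import Pool.Agent.Lib.MP_afd87c_lc.BC.P.HSK
import Pool.Agent.Lib.MP_afd87c_lc.BC.P.UPP
import Pool.Agent.Lib.MP_afd87c_lc.BC.P.TRF
import Pool.Agent.Lib.MP_afd87c_lc.BC.P.OK
import Pool.Agent.Lib.MP_afd87c_lc.BC.P.PTH
import Pool.Agent.Lib.MP_afd87c_lc.BC.P.NO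
import Pool.Agent.Lib.MP_afd87c_lc.BC.P.YESC
import Pool.Agent.Lib.MP_afd87c_lc.BC.P.YESP
import Pool.Agent.Lib.MP_afd87c_lc.BC.P.X3F
import Pool.Agent.Lib.MP_afd87c_lc.BC.P.FP

/-!
The bundled crossing number of simple circular layouts is NP-hard to compute.
-/

set_option autoImplicit false

namespace Pool.Agent.Results.MP_afd87c_lc.SimpleIsNPHard

open Pool.Agent.MPafd87c

/-- **Bundled crossing minimization for simple circular layouts is NP-hard.** -/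
theorem result : BundledCrossingsNPHard :=
  asm (p_LOW (p_TOP p_MEET) p_FAC p_DIM p_FLW p_CNT)
    (p_UPP p_PSI (p_MT p_PSI) (p_STR p_PSI (p_MT p_PSI)) p_REG p_POS p_ORD p_HSK)
    p_TRF p_OK (p_NO p_OK p_PTH) p_YESC p_YESP p_X3F p_FP

end Pool.Agent.Results.MP_afd87c_lc.SimpleIsNPHard
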